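import Mathlib

/-!
The equally spaced parallel slicing across the minimal width is not optimal in general:
a square pyramid and two pieces.
-/

namespace Pool.Agent.Results.MP_1ff74e_co.Pyramid

open Set Metric

/-- Euclidean three dimensional space. -/
abbrev E3 := EuclideanSpace ℝ (Fin 3)

/-- A convex body: a compact convex set with nonempty interior. -/
def IsConvexBody (K : Set E3) : Prop :=
  IsCompact K ∧ Convex ℝ K ∧ (interior K).Nonempty

/-- `IsSlicing K L`: the list `L` of sets is the list of pieces obtained from `K` by finitely many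
successive plane cuts; every cut is a plane `x · u = c` that has points of one current piece `P`
strictly on both sides and replaces `P` by its two closed parts, the other pieces being left
untouched. -/
inductive IsSlicing (K : Set E3) : List (Set E3) → Prop
  | start : IsSlicing K [K]
  | cut (l₁ l₂ : List (Set E3)) (P : Set E3) (u : E3) (c : ℝ) :
      IsSlicing K (l₁ ++ P :: l₂) → (∃ x ∈ P, inner ℝ x u < c) → (∃ x ∈ P, c < inner ℝ x u) →
      IsSlicing K (l₁ ++ (P ∩ {x | inner ℝ x u ≤ c}) :: (P ∩ {x | c ≤ inner ℝ x u}) :: l₂)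

/-- Inradius: the supremum of the radii of the closed balls contained in the set. -/
noncomputable def inradius (P : Set E3) : ℝ :=
  sSup {r : ℝ | 0 ≤ r ∧ ∃ c : E3, closedBall c r ⊆ P}

/-- The largest inradius among the pieces of a list. -/
noncomputable def maxInradius (L : List (Set E3)) : ℝ :=
  sSup {r : ℝ | ∃ P ∈ L, r = inradius P}

/-- Smallest value of `x · u` on `K`. -/
noncomputable def lowValue (K : Set E3) (u : E3) : ℝ := sInf ((fun x => inner ℝ x u) '' K)

/-- Width of `K` in direction `u` (distance between the two supporting planes for unit `u`). -/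
noncomputable def widthIn (K : Set E3) (u : E3) : ℝ :=
  sSup ((fun x => inner ℝ x u) '' K) - lowValue K u

/-- `u` is the unit normal of a minimal-width pair of `K`. -/
def IsMinWidthDirection (K : Set E3) (u : E3) : Prop :=
  ‖u‖ = 1 ∧ ∀ v : E3, ‖v‖ = 1 → widthIn K u ≤ widthIn K v

/-- The pieces of the equally spaced parallel slicing into `n` slabs orthogonal to `u`. -/
noncomputable def parallelSlicing (K : Set E3) (u : E3) (n : ℕ) : List (Set E3) :=
  (List.range n).map (fun i : ℕ => K ∩ {x |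
    lowValue K u + (i : ℝ) * (widthIn K u / n) ≤ inner ℝ x u ∧
      inner ℝ x u ≤ lowValue K u + ((i : ℝ) + 1) * (widthIn K u / n)})

/-- The square pyramid with apex `(0,0,1)` and base `[-4/3,4/3]²`. -/
def pyr : Set E3 :=
  {x | 0 ≤ x 2 ∧ 3 * x 0 + 4 * x 2 ≤ 4 ∧ -3 * x 0 + 4 * x 2 ≤ 4 ∧ 3 * x 1 + 4 * x 2 ≤ 4 ∧
    -3 * x 1 + 4 * x 2 ≤ 4}

lemma coord_le (x : E3) (i : Fin 3) : |x i| ≤ ‖x‖ := by
  simpa using PiLp.norm_apply_le x i

lemma pyr_compact : IsCompact pyr := by
  apply Metric.isCompact_of_isClosed_isBounded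
  · have e : pyr = {x : E3 | 0 ≤ x 2} ∩ ({x | 3 * x 0 + 4 * x 2 ≤ 4} ∩
        ({x | -3 * x 0 + 4 * x 2 ≤ 4} ∩ ({x | 3 * x 1 + 4 * x 2 ≤ 4} ∩
          {x | -3 * x 1 + 4 * x 2 ≤ 4}))) := rfl
    rw [e]
    exact (isClosed_le continuous_const (by fun_prop)).inter
      ((isClosed_le (by fun_prop) continuous_const).inter
        ((isClosed_le (by fun_prop) continuous_const).inter
          ((isClosed_le (by fun_prop) continuous_const).inter
            (isClosed_le (by fun_prop) continuous_const))))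
  · rw [isBounded_iff_forall_norm_le]
    refine ⟨3, fun x hx => ?_⟩
    obtain ⟨h1, h2, h3, h4, h5⟩ := hx
    rw [EuclideanSpace.norm_eq, Real.sqrt_le_left (by norm_num)]
    simp only [Fin.sum_univ_three, Real.norm_eq_abs, sq_abs]
    nlinarith

lemma pyr_body : IsConvexBody pyr := by
  refine ⟨pyr_compact, ?_, ?_⟩
  · intro x hx y hy a b ha hb hab
    obtain ⟨h1, h2, h3, h4, h5⟩ := hx
    obtain ⟨g1, g2, g3, g4, g5⟩ := hy
    have k1 := add_le_add (mul_le_mul_of_nonneg_left h1 ha) (mul_le_mul_of_nonneg_left g1 hb)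
    have k2 := add_le_add (mul_le_mul_of_nonneg_left h2 ha) (mul_le_mul_of_nonneg_left g2 hb)
    have k3 := add_le_add (mul_le_mul_of_nonneg_left h3 ha) (mul_le_mul_of_nonneg_left g3 hb)
    have k4 := add_le_add (mul_le_mul_of_nonneg_left h4 ha) (mul_le_mul_of_nonneg_left g4 hb)
    have k5 := add_le_add (mul_le_mul_of_nonneg_left h5 ha) (mul_le_mul_of_nonneg_left g5 hb)
    refine ⟨?_, ?_, ?_, ?_, ?_⟩ <;>
    · simp only [PiLp.add_apply, PiLp.smul_apply, smul_eq_mul]
      linarith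
  · refine ⟨!₂[0, 0, 1 / 2], ?_⟩
    rw [mem_interior]
    refine ⟨ball !₂[0, 0, 1 / 2] (1 / 8), ?_, isOpen_ball, mem_ball_self (by norm_num)⟩
    intro x hx
    rw [mem_ball, dist_eq_norm] at hx
    have h0 := abs_le.mp ((coord_le (x - !₂[0, 0, 1 / 2]) 0).trans hx.le)
    have h1 := abs_le.mp ((coord_le (x - !₂[0, 0, 1 / 2]) 1).trans hx.le)
    have h2 := abs_le.mp ((coord_le (x - !₂[0, 0, 1 / 2]) 2).trans hx.le)
    simp only [PiLp.sub_apply, Matrix.cons_val_zero, Matrix.cons_val_one, Matrix.cons_val] at h0 h1 h2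
    refine ⟨?_, ?_, ?_, ?_, ?_⟩ <;> linarith [h0.1, h0.2, h1.1, h1.2, h2.1, h2.2]

lemma cont_inner (u : E3) : Continuous (fun x : E3 => inner ℝ x u) := by fun_prop

lemma inner_eq (x u : E3) : inner ℝ x u = x 0 * u 0 + x 1 * u 1 + x 2 * u 2 := by
  simp [PiLp.inner_apply, Fin.sum_univ_three, mul_comm]

lemma width_ge (u x y : E3) (hx : x ∈ pyr) (hy : y ∈ pyr) :
    inner ℝ x u - inner ℝ y u ≤ widthIn pyr u := by
  have h1 : inner ℝ x u ≤ sSup ((fun x => inner ℝ x u) '' pyr) :=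
    le_csSup (pyr_compact.image (cont_inner u)).bddAbove (mem_image_of_mem _ hx)
  have h2 : sInf ((fun x => inner ℝ x u) '' pyr) ≤ inner ℝ y u :=
    csInf_le (pyr_compact.image (cont_inner u)).bddBelow (mem_image_of_mem _ hy)
  unfold widthIn lowValue
  linarith

lemma apex_mem : (!₂[0, 0, 1] : E3) ∈ pyr := by
  refine ⟨?_, ?_, ?_, ?_, ?_⟩ <;> simp

lemma base_mem (s t : ℝ) (hs : |s| ≤ 4 / 3) (ht : |t| ≤ 4 / 3) : (!₂[s, t, 0] : E3) ∈ pyr := by
  obtain ⟨h1, h2⟩ := abs_le.mp hs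
  obtain ⟨h3, h4⟩ := abs_le.mp ht
  refine ⟨?_, ?_, ?_, ?_, ?_⟩ <;> simp <;> linarith

lemma third_mem (t : ℝ) (h0 : 0 ≤ t) (h1 : t ≤ 1) : (!₂[0, 0, t] : E3) ∈ pyr := by
  refine ⟨?_, ?_, ?_, ?_, ?_⟩ <;> simp <;> linarith

lemma third_le (x : E3) (hx : x ∈ pyr) : x 2 ≤ 1 := by
  obtain ⟨h1, h2, h3, h4, h5⟩ := hx
  linarith

lemma width_lower (u : E3) : 4 / 3 * (|u 0| + |u 1|) + |u 2| ≤ widthIn pyr u := by
  -- a base vertex with value `σ (4/3) (|a| + |b|)`
  have hb : ∀ σ : ℝ, |σ| = 1 → ∃ y ∈ pyr, inner ℝ y u = σ * (4 / 3 * (|u 0| + |u 1|)) := by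
    intro σ hσ
    refine ⟨!₂[σ * (4 / 3) * SignType.sign (u 0), σ * (4 / 3) * SignType.sign (u 1), 0],
      base_mem _ _ ?_ ?_, ?_⟩
    · rw [abs_mul, abs_mul, hσ, one_mul, abs_of_pos (by norm_num : (0 : ℝ) < 4 / 3)]
      have : |((SignType.sign (u 0) : SignType) : ℝ)| ≤ 1 := by
        rcases lt_trichotomy (u 0) 0 with h | h | h
        · simp [sign_neg h]
        · simp [h]
        · simp [sign_pos h]
      linarith
    · rw [abs_mul, abs_mul, hσ, one_mul, abs_of_pos (by norm_num : (0 : ℝ) < 4 / 3)]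
      have : |((SignType.sign (u 1) : SignType) : ℝ)| ≤ 1 := by
        rcases lt_trichotomy (u 1) 0 with h | h | h
        · simp [sign_neg h]
        · simp [h]
        · simp [sign_pos h]
      linarith
    · rw [inner_eq]
      simp only [Matrix.cons_val_zero, Matrix.cons_val_one, Matrix.cons_val, zero_mul, add_zero]
      have e0 : ((SignType.sign (u 0) : SignType) : ℝ) * u 0 = |u 0| := sign_mul_self (u 0)
      have e1 : ((SignType.sign (u 1) : SignType) : ℝ) * u 1 = |u 1| := sign_mul_self (u 1)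
      calc _ = σ * (4 / 3) * (((SignType.sign (u 0) : SignType) : ℝ) * u 0) +
            σ * (4 / 3) * (((SignType.sign (u 1) : SignType) : ℝ) * u 1) := by ring
        _ = _ := by rw [e0, e1]; ring
  have ha : inner ℝ (!₂[0, 0, 1] : E3) u = u 2 := by
    rw [inner_eq]; simp
  rcases le_total 0 (u 2) with h | h
  · obtain ⟨y, hy, hy2⟩ := hb (-1) (by simp)
    have := width_ge u _ y apex_mem hy
    rw [ha, hy2] at this
    rw [abs_of_nonneg h]
    linarith
  · obtain ⟨y, hy, hy2⟩ := hb 1 (by simp)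
    have := width_ge u y _ hy apex_mem
    rw [ha, hy2] at this
    rw [abs_of_nonpos h]
    linarith

lemma image_e3 (c : ℝ) (u : E3) (h0 : u 0 = 0) (h1 : u 1 = 0) (h2 : u 2 = c) :
    (fun x => inner ℝ x u) '' pyr = (fun t => t * c) '' Icc (0 : ℝ) 1 := by
  ext v
  constructor
  · rintro ⟨x, hx, rfl⟩
    refine ⟨x 2, ⟨hx.1, third_le x hx⟩, ?_⟩
    simp only
    rw [inner_eq, h0, h1, h2]; ring
  · rintro ⟨t, ht, rfl⟩
    refine ⟨!₂[0, 0, t], third_mem t ht.1 ht.2, ?_⟩
    simp only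
    rw [inner_eq, h0, h1, h2]; simp

lemma low_pos (u : E3) (h0 : u 0 = 0) (h1 : u 1 = 0) (h2 : u 2 = 1) :
    lowValue pyr u = 0 ∧ widthIn pyr u = 1 := by
  have e : (fun x => inner ℝ x u) '' pyr = Icc 0 1 := by
    rw [image_e3 1 u h0 h1 h2]; simp
  have hl : lowValue pyr u = 0 := by
    unfold lowValue; rw [e]; exact csInf_Icc zero_le_one
  refine ⟨hl, ?_⟩
  unfold widthIn
  rw [hl, e, csSup_Icc zero_le_one]; norm_num

lemma low_neg (u : E3) (h0 : u 0 = 0) (h1 : u 1 = 0) (h2 : u 2 = -1) :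
    lowValue pyr u = -1 ∧ widthIn pyr u = 1 := by
  have e : (fun x => inner ℝ x u) '' pyr = Icc (-1) 0 := by
    rw [image_e3 (-1) u h0 h1 h2]
    ext v
    simp only [mem_image, mem_Icc]
    constructor
    · rintro ⟨t, ⟨ht0, ht1⟩, rfl⟩; constructor <;> linarith
    · rintro ⟨hv0, hv1⟩; exact ⟨-v, ⟨by linarith, by linarith⟩, by ring⟩
  have hl : lowValue pyr u = -1 := by
    unfold lowValue; rw [e]; exact csInf_Icc (by norm_num)
  refine ⟨hl, ?_⟩
  unfold widthIn
  rw [hl, e, csSup_Icc (by norm_num)]; norm_num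

/-- the third unit vector -/
noncomputable def e3 : E3 := !₂[0, 0, 1]

lemma e3_norm : ‖e3‖ = 1 := by
  rw [EuclideanSpace.norm_eq]; simp [e3, Fin.sum_univ_three]

lemma sum_sq (u : E3) (hu : ‖u‖ = 1) : u 0 ^ 2 + u 1 ^ 2 + u 2 ^ 2 = 1 := by
  have : ‖u‖ ^ 2 = 1 := by rw [hu]; norm_num
  rw [EuclideanSpace.norm_sq_eq] at this
  simpa [Fin.sum_univ_three] using this

lemma width_unit (u : E3) (hu : ‖u‖ = 1) : 1 ≤ widthIn pyr u := by
  refine le_trans ?_ (width_lower u)
  have hs := sum_sq u hu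
  have h0 := abs_nonneg (u 0)
  have h1 := abs_nonneg (u 1)
  have h2 := abs_nonneg (u 2)
  rw [← sq_abs (u 0), ← sq_abs (u 1), ← sq_abs (u 2)] at hs
  nlinarith [mul_nonneg h0 h1, mul_nonneg h0 h2, mul_nonneg h1 h2]

lemma e3_min : IsMinWidthDirection pyr e3 := by
  refine ⟨e3_norm, fun v hv => ?_⟩
  rw [(low_pos e3 (by simp [e3]) (by simp [e3]) (by simp [e3])).2]
  exact width_unit v hv

lemma min_dir (u : E3) (hu : IsMinWidthDirection pyr u) :
    u 0 = 0 ∧ u 1 = 0 ∧ (u 2 = 1 ∨ u 2 = -1) := by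
  have h := hu.2 e3 e3_norm
  rw [(low_pos e3 (by simp [e3]) (by simp [e3]) (by simp [e3])).2] at h
  have h' := (width_lower u).trans h
  have hs := sum_sq u hu.1
  have h0 := abs_nonneg (u 0)
  have h1 := abs_nonneg (u 1)
  have h2 := abs_nonneg (u 2)
  rw [← sq_abs (u 0), ← sq_abs (u 1), ← sq_abs (u 2)] at hs
  have hsum : |u 0| + |u 1| = 0 := by
    have hle : |u 2| ≤ 1 := by nlinarith
    have hsq : (4 / 3 * (|u 0| + |u 1|)) ^ 2 ≤ (1 - |u 2|) ^ 2 :=
      pow_le_pow_left₀ (by positivity) (by linarith) 2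
    have h3 : (|u 0| + |u 1|) ^ 2 ≤ 0 := by nlinarith [mul_nonneg h0 h1]
    have := sq_nonneg (|u 0| + |u 1|)
    exact pow_eq_zero_iff (n := 2) (by norm_num) |>.mp (le_antisymm h3 this)
  have z0 : |u 0| = 0 := by linarith
  have z1 : |u 1| = 0 := by linarith
  refine ⟨abs_eq_zero.mp z0, abs_eq_zero.mp z1, ?_⟩
  rw [z0, z1] at hs
  have : |u 2| = 1 := by nlinarith
  exact (abs_eq (by norm_num)).mp this

lemma radii_bdd (P : Set E3) (hP : P ⊆ pyr) :
    BddAbove {r : ℝ | 0 ≤ r ∧ ∃ c : E3, closedBall c r ⊆ P} := by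
  refine ⟨1, ?_⟩
  rintro r ⟨hr, c, hc⟩
  have h1 : c + r • e3 ∈ pyr := hP (hc (by
    simp [mem_closedBall, norm_smul, e3_norm, abs_of_nonneg hr]))
  have h2 : c - r • e3 ∈ pyr := hP (hc (by
    simp [mem_closedBall, dist_eq_norm, norm_smul, e3_norm, abs_of_nonneg hr]))
  have h3 := third_le _ h1
  have h4 := h2.1
  simp only [PiLp.add_apply, PiLp.sub_apply, PiLp.smul_apply, e3, Matrix.cons_val,
    smul_eq_mul, mul_one] at h3 h4
  linarith

lemma le_maxInradius (L : List (Set E3)) (P : Set E3) (hP : P ∈ L) :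
    inradius P ≤ maxInradius L := by
  apply le_csSup
  · have : {r : ℝ | ∃ P ∈ L, r = inradius P} = ((L.map inradius).toFinset : Set ℝ) := by
      ext r
      simp only [List.coe_toFinset, List.mem_map, mem_ofPred_eq]
      constructor
      · rintro ⟨P, hP, rfl⟩; exact ⟨P, hP, rfl⟩
      · rintro ⟨P, hP, rfl⟩; exact ⟨P, hP, rfl⟩
    rw [this]
    exact Finset.bddAbove _
  · exact ⟨P, hP, rfl⟩

/-- the lower slab of height one half has inradius at least one quarter -/
lemma slab_inradius : 1 / 4 ≤ inradius (pyr ∩ {x | 0 ≤ x 2 ∧ x 2 ≤ 1 / 2}) := by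
  apply le_csSup (radii_bdd _ inter_subset_left)
  refine ⟨by norm_num, !₂[0, 0, 1 / 4], ?_⟩
  intro x hx
  rw [mem_closedBall, dist_eq_norm] at hx
  have h0 := abs_le.mp ((coord_le (x - !₂[0, 0, 1 / 4]) 0).trans hx)
  have h1 := abs_le.mp ((coord_le (x - !₂[0, 0, 1 / 4]) 1).trans hx)
  have h2 := abs_le.mp ((coord_le (x - !₂[0, 0, 1 / 4]) 2).trans hx)
  simp only [PiLp.sub_apply, Matrix.cons_val_zero, Matrix.cons_val_one, Matrix.cons_val]
    at h0 h1 h2
  refine ⟨⟨?_, ?_, ?_, ?_, ?_⟩, ?_, ?_⟩ <;> linarith [h0.1, h0.2, h1.1, h1.2, h2.1, h2.2]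

/-- The two pieces cut off by the plane at height `9/20`. -/
noncomputable def cutList : List (Set E3) :=
  [pyr ∩ {x | inner ℝ x e3 ≤ 9 / 20}, pyr ∩ {x | 9 / 20 ≤ inner ℝ x e3}]

lemma inner_e3 (x : E3) : inner ℝ x e3 = x 2 := by
  rw [inner_eq]; simp [e3]

lemma cut_slicing : IsSlicing pyr cutList := by
  refine IsSlicing.cut [] [] pyr e3 (9 / 20) IsSlicing.start ?_ ?_
  · refine ⟨!₂[0, 0, 0], third_mem 0 le_rfl zero_le_one, ?_⟩
    rw [inner_e3]; simp
  · refine ⟨!₂[0, 0, 1], apex_mem, ?_⟩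
    rw [inner_e3]; simp; norm_num

lemma piece1 : inradius (pyr ∩ {x | inner ℝ x e3 ≤ 9 / 20}) ≤ 11 / 45 := by
  apply Real.sSup_le _ (by norm_num)
  rintro r ⟨hr, c, hc⟩
  have h1 := (hc (show c + r • e3 ∈ closedBall c r by
    simp [mem_closedBall, norm_smul, e3_norm, abs_of_nonneg hr])).2
  have h2 := (hc (show c - r • e3 ∈ closedBall c r by
    simp [mem_closedBall, dist_eq_norm, norm_smul, e3_norm, abs_of_nonneg hr])).1.1
  simp only [mem_ofPred_eq, inner_e3] at h1
  simp only [PiLp.add_apply, PiLp.sub_apply, PiLp.smul_apply, e3, Matrix.cons_val,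
    smul_eq_mul, mul_one] at h1 h2
  linarith

lemma piece2 : inradius (pyr ∩ {x | 9 / 20 ≤ inner ℝ x e3}) ≤ 11 / 45 := by
  apply Real.sSup_le _ (by norm_num)
  rintro r ⟨hr, c, hc⟩
  have h2 := (hc (show c - r • e3 ∈ closedBall c r by
    simp [mem_closedBall, dist_eq_norm, norm_smul, e3_norm, abs_of_nonneg hr])).2
  have n1 : ‖(!₂[3 / 5, 0, 4 / 5] : E3)‖ = 1 := by
    rw [EuclideanSpace.norm_eq, Real.sqrt_eq_one]
    simp [Fin.sum_univ_three]; norm_num
  have n2 : ‖(!₂[-3 / 5, 0, 4 / 5] : E3)‖ = 1 := by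
    rw [EuclideanSpace.norm_eq, Real.sqrt_eq_one]
    simp [Fin.sum_univ_three, abs_div]; norm_num
  have h3 := (hc (show c + r • (!₂[3 / 5, 0, 4 / 5] : E3) ∈ closedBall c r by
    simp [mem_closedBall, norm_smul, n1, abs_of_nonneg hr])).1.2.1
  have h4 := (hc (show c + r • (!₂[-3 / 5, 0, 4 / 5] : E3) ∈ closedBall c r by
    simp [mem_closedBall, norm_smul, n2, abs_of_nonneg hr])).1.2.2.1
  simp only [mem_ofPred_eq, inner_e3] at h2
  simp only [PiLp.add_apply, PiLp.sub_apply, PiLp.smul_apply, e3, Matrix.cons_val,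
    Matrix.cons_val_zero, smul_eq_mul, mul_one] at h2 h3 h4
  linarith

lemma cut_max : maxInradius cutList ≤ 11 / 45 := by
  apply Real.sSup_le _ (by norm_num)
  rintro r ⟨P, hP, rfl⟩
  simp only [cutList, List.mem_cons, List.mem_nil_iff, or_false] at hP
  rcases hP with rfl | rfl
  · exact piece1
  · exact piece2

lemma par_max (u : E3) (hu : IsMinWidthDirection pyr u) :
    1 / 4 ≤ maxInradius (parallelSlicing pyr u 2) := by
  obtain ⟨h0, h1, h2⟩ := min_dir u hu
  refine slab_inradius.trans (le_maxInradius _ _ ?_)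
  unfold parallelSlicing
  simp only [List.mem_map, List.mem_range]
  rcases h2 with h2 | h2
  · obtain ⟨e1, e2⟩ := low_pos u h0 h1 h2
    refine ⟨0, by norm_num, ?_⟩
    rw [e1, e2]
    congr 1
    ext x
    simp only [mem_ofPred_eq, inner_eq, h0, h1, h2]
    norm_num
  · obtain ⟨e1, e2⟩ := low_neg u h0 h1 h2
    refine ⟨1, by norm_num, ?_⟩
    rw [e1, e2]
    congr 1
    ext x
    simp only [mem_ofPred_eq, inner_eq, h0, h1, h2]
    constructor
    · rintro ⟨g1, g2⟩
      constructor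
      · push_cast at g2; linarith
      · push_cast at g1; linarith
    · rintro ⟨g1, g2⟩
      constructor
      · push_cast; linarith
      · push_cast; linarith

/-- The negated form of the question: there are a convex body `K`, an integer `n ≥ 2` and an
admissible slicing `L` of `K` into `n` pieces whose largest inradius is strictly smaller than
that of every equally spaced parallel slicing attached to a minimal-width pair of `K`
(and `K` has such a pair). -/
theorem result : ∃ (K : Set E3) (n : ℕ) (L : List (Set E3)),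
    IsConvexBody K ∧ 2 ≤ n ∧ IsSlicing K L ∧ L.length = n ∧
    (∃ u : E3, IsMinWidthDirection K u) ∧
    ∀ u : E3, IsMinWidthDirection K u →
      maxInradius L < maxInradius (parallelSlicing K u n) := by
  refine ⟨pyr, 2, cutList, pyr_body, le_rfl, cut_slicing, rfl, ⟨e3, e3_min⟩, ?_⟩
  intro u hu
  have h1 := cut_max
  have h2 := par_max u hu
  linarith

end Pool.Agent.Results.MP_1ff74e_co.Pyramid
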